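import Pool.Agent.W606.PS.Stm

/-!
# PS-LEG
-/

set_option autoImplicit false

open Set Relation

namespace Pool.Agent.W318.PS.Leg

open Pool.Agent.W606.PS

theorem connected_of_con {V : Type} {G : SimpleGraph V} (h : Con G univ) : G.Connected := by
  obtain ⟨u0, -⟩ := h.1
  have : Nonempty V := ⟨u0⟩
  refine SimpleGraph.Connected.mk ?_
  intro u v
  rw [SimpleGraph.reachable_iff_reflTransGen]
  have h1 := h.2 u (mem_univ u) v (mem_univ v)
  induction h1 with
  | refl => exact ReflTransGen.refl
  | tail _ h2 ih => exact ih.tail h2.1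

theorem exists_data {V : Type} [Fintype V] (Om : Set V) (f : V → ℤ) (par : V → V)
    (hpar : ∀ u ∈ Om, f (par u) < f u) (c0 : V → Fin 3) :
    (∀ P : V → Prop, (∀ u, u ∉ Om → P u) → (∀ u ∈ Om, P (par u) → P u) → ∀ u, P u) ∧
    ∃ g : V → Fin 3 × Set V,
      (∀ u ∈ Om, g u = ((g (par u)).1, insert u (g (par u)).2)) ∧
        ∀ u, u ∉ Om → g u = (c0 u, ∅) := by
  classical
  let r : V → V → Prop := fun w u => f w < f u
  have wf : WellFounded r := by
    have : IsTrans V r := ⟨fun a b c h1 h2 => lt_trans h1 h2⟩
    have : Std.Irrefl r := ⟨fun a => lt_irrefl _⟩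
    exact Finite.wellFounded_of_trans_of_irrefl r
  constructor
  · intro P h1 h2 u
    induction u using wf.induction with
    | _ u ih =>
      by_cases hu : u ∈ Om
      · exact h2 u hu (ih (par u) (hpar u hu))
      · exact h1 u hu
  · let F : (u : V) → ((w : V) → r w u → Fin 3 × Set V) → Fin 3 × Set V := fun u rec =>
      if h : u ∈ Om then ((rec (par u) (hpar u h)).1, insert u (rec (par u) (hpar u h)).2)
      else (c0 u, ∅)
    refine ⟨wf.fix F, ?_, ?_⟩
    · intro u hu
      rw [wf.fix_eq]
      simp only [F, dif_pos hu]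
    · intro u hu
      rw [wf.fix_eq]
      simp only [F, dif_neg hu]

theorem main : S_LEG := by
  intro V _ G hG M Om Z hZ hdis hcov f hlip hrng hstep
  classical
  have hpar : ∃ par : V → V, ∀ u ∈ Om, G.Adj u (par u) ∧ f (par u) = f u - 1 := by
    choose! par h using hstep
    exact ⟨par, h⟩
  obtain ⟨par, hpar⟩ := hpar
  have hc0 : ∃ c0 : V → Fin 3, ∀ u, u ∉ Om → u ∈ Z (c0 u) := by
    have : ∀ u, ∃ i : Fin 3, u ∉ Om → u ∈ Z i := by
      intro u
      by_cases hu : u ∈ Om
      · exact ⟨0, fun h => absurd hu h⟩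
      · have h1 : u ∈ ⋃ i, Z i := by
          rw [hcov]
          exact hu
        rw [mem_iUnion] at h1
        obtain ⟨i, hi⟩ := h1
        exact ⟨i, fun _ => hi⟩
    choose c0 h using this
    exact ⟨c0, h⟩
  obtain ⟨c0, hc0⟩ := hc0
  have hZO : ∀ i, ∀ z ∈ Z i, z ∉ Om := by
    intro i z hz
    have h1 : z ∈ ⋃ i, Z i := mem_iUnion.2 ⟨i, hz⟩
    rw [hcov] at h1
    exact h1
  obtain ⟨ind, g, hg1, hg2⟩ := exists_data Om f par
    (fun u hu => by rw [(hpar u hu).2]; omega) c0
  obtain ⟨col, hcol⟩ : ∃ col : V → Fin 3, ∀ u, col u = (g u).1 := ⟨fun u => (g u).1, fun _ => rfl⟩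
  obtain ⟨leg, hleg⟩ : ∃ leg : V → Set V, ∀ u, leg u = (g u).2 := ⟨fun u => (g u).2, fun _ => rfl⟩
  have colO : ∀ u ∈ Om, col u = col (par u) := by
    intro u hu
    rw [hcol, hcol, hg1 u hu]
  have legO : ∀ u ∈ Om, leg u = insert u (leg (par u)) := by
    intro u hu
    rw [hleg, hleg, hg1 u hu]
  have colN : ∀ u, u ∉ Om → col u = c0 u := by
    intro u hu
    rw [hcol, hg2 u hu]
  have legN : ∀ u, u ∉ Om → leg u = ∅ := by
    intro u hu
    rw [hleg, hg2 u hu]
  have colZ : ∀ i, ∀ z ∈ Z i, col z = i := by
    intro i z hz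
    have hzO := hZO i z hz
    rw [colN z hzO]
    by_contra hne
    exact (Set.disjoint_left.1 (hdis _ _ hne)) (hc0 z hzO) hz
  have memZ : ∀ u, u ∉ Om → u ∈ Z (col u) := by
    intro u hu
    rw [colN u hu]
    exact hc0 u hu
  have memL : ∀ u ∈ Om, u ∈ leg u := by
    intro u hu
    rw [legO u hu]
    exact mem_insert u _
  have sub : ∀ u, leg u ⊆ Om := by
    refine ind _ ?_ ?_
    · intro u hu
      rw [legN u hu]
      exact empty_subset _
    · intro u hu ih
      rw [legO u hu]
      exact insert_subset hu ih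
  have colL : ∀ u, ∀ v ∈ leg u, col v = col u := by
    refine ind _ ?_ ?_
    · intro u hu v hv
      rw [legN u hu] at hv
      exact absurd hv (notMem_empty v)
    · intro u hu ih v hv
      rw [legO u hu, mem_insert_iff] at hv
      rcases hv with rfl | hv
      · rfl
      · rw [ih v hv, colO u hu]
  have pos : ∀ u, u ∈ Om → 1 ≤ f u := by
    refine ind _ ?_ ?_
    · intro u hu hu'
      exact absurd hu' hu
    · intro u hu ih _
      have h1 := (hpar u hu).2
      by_cases hp : par u ∈ Om
      · have := ih hp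
        omega
      · have := (hrng (par u) ⟨hp, u, hu, (hpar u hu).1⟩).1
        omega
  have le : ∀ u, ∀ v ∈ leg u, f v ≤ f u := by
    refine ind _ ?_ ?_
    · intro u hu v hv
      rw [legN u hu] at hv
      exact absurd hv (notMem_empty v)
    · intro u hu ih v hv
      rw [legO u hu, mem_insert_iff] at hv
      rcases hv with rfl | hv
      · exact le_rfl
      · have h1 := ih v hv
        have h2 := (hpar u hu).2
        omega
  refine ⟨col, leg, ?_⟩
  constructor
  · exact hlip
  · exact hrng
  · exact colZ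
  · intro u hu
    exact ⟨par u, (hpar u hu).1, (hpar u hu).2, (colO u hu).symm, legO u hu⟩
  · exact legN
  · exact sub
  · exact colL
  · intro u v hv
    exact ⟨by have := pos v (sub u hv); omega, le u v hv⟩
  · refine ind _ ?_ ?_
    · intro u hu v hv
      rw [legN u hu] at hv
      exact absurd hv (notMem_empty v)
    · intro u hu ih v hv w hw hvw
      have h2 := (hpar u hu).2
      rw [legO u hu, mem_insert_iff] at hv hw
      rcases hv with rfl | hv
      · rcases hw with rfl | hw
        · rfl
        · have := le _ w hw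
          omega
      · rcases hw with rfl | hw
        · have := le _ v hv
          omega
        · exact ih v hv w hw hvw
  · refine ind _ ?_ ?_
    · intro u hu
      rw [legN u hu, union_empty]
      exact hZ _
    · intro u hu ih
      have h1 : Z (col u) ∪ leg u = {u} ∪ (Z (col (par u)) ∪ leg (par u)) := by
        rw [colO u hu, legO u hu, insert_eq, union_left_comm]
      rw [h1]
      refine (con_singleton G u).union_tch ih ⟨u, rfl, par u, ?_, (hpar u hu).1⟩
      by_cases hp : par u ∈ Om
      · exact Or.inr (memL _ hp)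
      · exact Or.inl (memZ _ hp)
  · refine ind _ ?_ ?_
    · intro u hu hu'
      exact absurd hu' hu
    · intro u hu ih _
      rw [legO u hu, insert_eq]
      by_cases hp : par u ∈ Om
      · exact (con_singleton G u).union_tch (ih hp) ⟨u, rfl, par u, memL _ hp, (hpar u hu).1⟩
      · rw [legN _ hp, union_empty]
        exact con_singleton G u
  · intro i
    have hcon : ∀ u, Con G (Z (col u) ∪ leg u) := by
      refine ind _ ?_ ?_
      · intro u hu
        rw [legN u hu, union_empty]
        exact hZ _
      · intro u hu ih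
        have h1 : Z (col u) ∪ leg u = {u} ∪ (Z (col (par u)) ∪ leg (par u)) := by
          rw [colO u hu, legO u hu, insert_eq, union_left_comm]
        rw [h1]
        refine (con_singleton G u).union_tch ih ⟨u, rfl, par u, ?_, (hpar u hu).1⟩
        by_cases hp : par u ∈ Om
        · exact Or.inr (memL _ hp)
        · exact Or.inl (memZ _ hp)
    refine con_of_cover (hZ i) (fun z hz => colZ i z hz) ?_
    intro v hv
    have hv' : col v = i := hv
    refine ⟨Z (col v) ∪ leg v, ?_, ?_, hcon v, ?_⟩
    · by_cases hvO : v ∈ Om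
      · exact Or.inr (memL v hvO)
      · exact Or.inl (memZ v hvO)
    · rintro w (hw | hw)
      · rw [hv'] at hw
        exact colZ i w hw
      · exact (colL v w hw).trans hv'
    · obtain ⟨z, hz⟩ := (hZ i).1
      refine ⟨z, Or.inl ?_, hz⟩
      rw [hv']
      exact hz
  · have hGc := connected_of_con hG
    refine ind _ ?_ ?_
    · intro u hu hu'
      exact absurd hu' hu
    · intro u hu ih _
      obtain ⟨had, hf⟩ := hpar u hu
      have hd : G.dist u (par u) = 1 := SimpleGraph.dist_eq_one_iff_adj.2 had
      by_cases hp : par u ∈ Om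
      · obtain ⟨z, hz, hdz⟩ := ih hp
        refine ⟨z, hz, ?_⟩
        have h1 := hGc.dist_triangle (u := u) (v := par u) (w := z)
        rw [hd] at h1
        omega
      · refine ⟨par u, hp, ?_⟩
        rw [hd]
        have := pos u hu
        omega

end Pool.Agent.W318.PS.Leg
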